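import Mathlib
import Pool.Agent.H4.QM.Defs
import Pool.Agent.H4.QM.Fin

/-! Quantisation of the Mishchenko-Fomenko subalgebra `F_a`, for every `a`, regular or not, for
Lie algebras with an abelian ideal `V` such that `stab ξ + V` depends only on the restriction of
`ξ` to `V`. -/

namespace Pool.Agent.Results.MP_84bfea_al.AbelianIdealEveryA

open Pool.Agent.H4.QM

/-- Let the finite dimensional complex Lie algebra `g` (with the dual space `E`) have an abelian
ideal `V` such that
(i) for generic `ξ` (`dim g_ξ` and `dim (g_ξ ∩ V)` minimal) `g_ξ + V` depends only on the
restriction of `ξ` to `V`, or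
(ii) the stabiliser in `g / V` of the restriction of `ξ` to `V` is abelian for generic `ξ`, or
(iii) `g_ξ + V` is maximal isotropic for some generic `ξ` (formula for the dimensions);
or let
(iv) `g` be metabelian, or
(v) `g` have an element of the centroid with kernel equal to its image, or
(vi) `g` be (isomorphic to) a Lie algebra of upper triangular `N × N` matrices which contains
the matrix units `E_ij`, `i ≤ N / 2 < j`.
Then `F_a` has a quantisation for every `a` in the dual space, regular or not. -/
theorem result (g E : Type) [LieRing g] [LieAlgebra ℂ g] [FiniteDimensional ℂ g]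
    [NormedAddCommGroup E] [NormedSpace ℂ E] (B : E → g → ℂ) (hB : IsDual B)
    (h : (∃ V, Cond B V) ∨ Special g) (a : E) :
    ∃ A : Subalgebra ℂ (UniversalEnvelopingAlgebra ℂ g), IsQuant B a A :=
  main g E B hB h a

end Pool.Agent.Results.MP_84bfea_al.AbelianIdealEveryA
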